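import Mathlib

/-!
# The number of distinct-sum permutations: words and the transfer recursion

`N_le`: the number of permutations with distinct sums modulo `n` is at most the number with distinct integer sums.
`words`, `cnt`: good words over `0, 1, 2, 3` and the recursion for their number.
-/

set_option autoImplicit false

open Finset

namespace Pool.Agent.Results.MP_31c4fb_co.SaturationValue

/-- `N(n, k)`: the least number, over all vectors `a` with `k` entries in `ℤ/n`, of permutations `π`
for which the sums `a (π i) + i` are pairwise distinct (positions `0, …, k - 1`). -/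
noncomputable def N (n k : ℕ) : ℕ :=
  ⨅ a : Fin k → ZMod n,
    {π : Equiv.Perm (Fin k) |
      Function.Injective (fun i : Fin k => a (π i) + (((i : ℕ)) : ZMod n))}.ncard

/-- Permutations with distinct integer sums. -/
def goodPerms {k : ℕ} (a : Fin k → ℕ) : Finset (Equiv.Perm (Fin k)) :=
  univ.filter (fun π => Function.Injective (fun i : Fin k => a (π i) + (i : ℕ)))

theorem N_le (n k : ℕ) (a : Fin k → ℕ) : N n k ≤ (goodPerms a).card := by
  unfold N
  refine (ciInf_le (OrderBot.bddBelow _) (fun i => ((a i : ℕ) : ZMod n))).trans ?_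
  rw [← Set.ncard_coe_finset]
  refine Set.ncard_le_ncard ?_ (Finset.finite_toSet _)
  intro π hπ
  simp only [goodPerms, coe_filter, mem_univ, true_and, Set.mem_ofPred_eq]
  intro i j hij
  apply hπ
  have h2 := congrArg (Nat.cast : ℕ → ZMod n) hij
  simpa using h2

/-- Words over `0, …, q - 1` with distinct sums. -/
def inj (k q : ℕ) : Finset (Fin k → Fin q) :=
  univ.filter (fun b => Function.Injective (fun i : Fin k => ((b i : ℕ)) + (i : ℕ)))

theorem avg (n k q : ℕ) : q ^ k * N n k ≤ k.factorial * (inj k q).card := by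
  have h1 : ∑ _a : Fin k → Fin q, N n k ≤
      ∑ a : Fin k → Fin q, (goodPerms (fun i => (a i : ℕ))).card :=
    sum_le_sum fun a _ => N_le n k _
  rw [sum_const, smul_eq_mul, card_univ, Fintype.card_fun, Fintype.card_fin,
    Fintype.card_fin] at h1
  refine h1.trans ?_
  simp only [goodPerms, card_filter]
  rw [sum_comm]
  have h2 : ∀ π : Equiv.Perm (Fin k), ∑ a : Fin k → Fin q,
      (if Function.Injective (fun i : Fin k => ((a (π i) : ℕ)) + (i : ℕ)) then 1 else 0) =
      (inj k q).card := by
    intro π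
    rw [inj, card_filter]
    exact Equiv.sum_comp (Equiv.arrowCongr π.symm (Equiv.refl (Fin q)))
      (fun b : Fin k → Fin q =>
        if Function.Injective (fun i : Fin k => ((b i : ℕ)) + (i : ℕ)) then 1 else 0)
  rw [sum_congr rfl fun π _ => h2 π, sum_const, smul_eq_mul, card_univ, Fintype.card_perm,
    Fintype.card_fin]

/-- Number of good words of length `k` with at most `c_v` letters `v`, given which of the next three
slots are occupied (computable). -/
def cnt : ℕ → ℕ → ℕ → ℕ → ℕ → Bool → Bool → Bool → ℕ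
  | 0, _, _, _, _, _, _, _ => 1
  | k + 1, c0, c1, c2, c3, x0, x1, x2 =>
    (if c0 = 0 ∨ x0 = true then 0 else cnt k (c0 - 1) c1 c2 c3 x1 x2 false) +
    (if c1 = 0 ∨ x1 = true then 0 else cnt k c0 (c1 - 1) c2 c3 true x2 false) +
    (if c2 = 0 ∨ x2 = true then 0 else cnt k c0 c1 (c2 - 1) c3 x1 true false) +
    (if c3 = 0 then 0 else cnt k c0 c1 c2 (c3 - 1) x1 x2 true)

/-- Good words of length `k` with at most `c v` letters `v` avoiding the occupied slots. -/
def words (k : ℕ) (c : Fin 4 → ℕ) (occ : ℕ → Bool) : Finset (Fin k → Fin 4) :=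
  univ.filter (fun w => (∀ v, (univ.filter (fun i => w i = v)).card ≤ c v) ∧
    Function.Injective (fun i : Fin k => ((w i : ℕ)) + (i : ℕ)) ∧
    ∀ i : Fin k, occ ((w i : ℕ) + (i : ℕ)) = false)

/-- Words beginning with `v`. -/
theorem card_words_cons (k : ℕ) (c : Fin 4 → ℕ) (occ : ℕ → Bool) (v : Fin 4) :
    ((words (k + 1) c occ).filter (fun w => w 0 = v)).card ≤
      if c v = 0 ∨ occ v = true then 0 else
        (words k (Function.update c v (c v - 1))
          (fun s => occ (s + 1) || decide (s + 1 = (v : ℕ)))).card := by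
  classical
  split_ifs with h
  · rw [Nat.le_zero, card_eq_zero, filter_eq_empty_iff]
    intro w hw hv
    obtain ⟨-, h1, h2, h3⟩ := mem_filter.1 hw
    rcases h with h | h
    · have h4 := h1 v
      rw [h, Nat.le_zero, card_eq_zero, filter_eq_empty_iff] at h4
      exact h4 (mem_univ 0) hv
    · have h4 := h3 0
      rw [hv] at h4
      simp [h] at h4
  · push Not at h
    refine card_le_card_of_injOn (fun w i => w i.succ) ?_ ?_
    · intro w hw
      obtain ⟨hw1, hv⟩ := mem_filter.1 hw
      obtain ⟨-, h1, h2, h3⟩ := mem_filter.1 hw1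
      refine mem_filter.2 ⟨mem_univ _, ?_, ?_, ?_⟩
      · intro u
        have h4 := h1 u
        rw [card_filter, Fin.sum_univ_succ] at h4
        rw [card_filter]
        show (∑ i : Fin k, if w i.succ = u then 1 else 0) ≤ _
        by_cases huv : u = v
        · subst huv
          rw [Function.update_self]
          rw [if_pos hv] at h4
          omega
        · rw [Function.update_of_ne huv]
          exact (Nat.le_add_left _ _).trans h4
      · intro i j hij
        have h4 : ((w i.succ : ℕ)) + ((i.succ : Fin (k + 1)) : ℕ) =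
            ((w j.succ : ℕ)) + ((j.succ : Fin (k + 1)) : ℕ) := by
          simp only [Fin.val_succ]
          have : ((w i.succ : ℕ)) + (i : ℕ) = ((w j.succ : ℕ)) + (j : ℕ) := hij
          omega
        exact Fin.succ_injective k (h2 h4)
      · intro i
        have h4 := h3 i.succ
        simp only [Fin.val_succ] at h4
        have h5 : (w i.succ : ℕ) + (i : ℕ) + 1 ≠ (v : ℕ) := by
          intro h6
          have h7 : ((w i.succ : ℕ)) + ((i.succ : Fin (k + 1)) : ℕ) =
              ((w 0 : ℕ)) + ((0 : Fin (k + 1)) : ℕ) := by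
            rw [hv]
            simp only [Fin.val_succ, Fin.val_zero]
            omega
          exact (Fin.succ_ne_zero i) (h2 h7)
        rw [← add_assoc] at h4
        simp [h4, h5]
    · intro w hw w' hw' hww
      have hv := (mem_filter.1 hw).2
      have hv' := (mem_filter.1 hw').2
      funext i
      refine Fin.cases ?_ (fun j => ?_) i
      · rw [hv, hv']
      · exact congrFun hww j

theorem card_words_le (k : ℕ) : ∀ (c : Fin 4 → ℕ) (occ : ℕ → Bool), (∀ s, 3 ≤ s → occ s = false) →
    (words k c occ).card ≤ cnt k (c 0) (c 1) (c 2) (c 3) (occ 0) (occ 1) (occ 2) := by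
  induction k with
  | zero =>
    intro c occ _
    refine (card_le_univ _).trans ?_
    simp [cnt]
  | succ k ih =>
    intro c occ hocc
    have h1 : (words (k + 1) c occ).card =
        ∑ v : Fin 4, ((words (k + 1) c occ).filter (fun w => w 0 = v)).card :=
      card_eq_sum_card_fiberwise (fun w _ => mem_univ (w 0))
    rw [h1, Fin.sum_univ_four]
    unfold cnt
    have h3 : occ 3 = false := hocc 3 le_rfl
    have key : ∀ v : Fin 4, ((words (k + 1) c occ).filter (fun w => w 0 = v)).card ≤
        if c v = 0 ∨ occ v = true then 0 else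
          cnt k (Function.update c v (c v - 1) 0) (Function.update c v (c v - 1) 1)
            (Function.update c v (c v - 1) 2) (Function.update c v (c v - 1) 3)
            (occ 1 || decide (1 = (v : ℕ))) (occ 2 || decide (2 = (v : ℕ)))
            (occ 3 || decide (3 = (v : ℕ))) := by
      intro v
      refine (card_words_cons k c occ v).trans ?_
      split_ifs
      · exact le_rfl
      · refine ih _ _ fun s hs => ?_
        have h4 : s + 1 ≠ (v : ℕ) := by have := v.2; omega
        simp [hocc (s + 1) (by omega), h4]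
    refine Nat.add_le_add (Nat.add_le_add (Nat.add_le_add ?_ ?_) ?_) ?_
    · simpa [h3] using key 0
    · simpa [h3] using key 1
    · simpa [h3] using key 2
    · simpa [h3] using key 3


/-- The number of perms `π` with `vec ∘ π = w` is at most the product of the factorials of the multiplicities. -/
theorem card_perms_fiber {k : ℕ} (vec w : Fin k → Fin 4) (M : ℕ)
    (hM : ∏ v : Fin 4, (Fintype.card {i : Fin k // vec i = v}).factorial = M) :
    (univ.filter (fun π : Equiv.Perm (Fin k) => vec ∘ ⇑π = w)).card ≤ M := by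
  classical
  rcases (univ.filter (fun π : Equiv.Perm (Fin k) => vec ∘ ⇑π = w)).eq_empty_or_nonempty with h | h
  · rw [h]; simp
  · obtain ⟨π₀, h0⟩ := h
    have h0' : vec ∘ ⇑π₀ = w := (mem_filter.1 h0).2
    have h1 := DomMulAct.stabilizer_card vec
    have h2 : (univ.filter (fun g : Equiv.Perm (Fin k) => vec ∘ ⇑g = vec)).card = M := by
      rw [← Fintype.card_subtype, ← hM, ← h1]
    rw [← h2]
    refine card_le_card_of_injOn (fun π => π * π₀⁻¹) ?_ ?_
    · intro π hπ
      have h3 : vec ∘ ⇑π = w := (mem_filter.1 hπ).2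
      refine mem_filter.2 ⟨mem_univ _, ?_⟩
      funext i
      have h4 := congrFun h3 (π₀⁻¹ i)
      have h5 := congrFun h0' (π₀⁻¹ i)
      simp only [Function.comp_apply] at h4 h5
      have h6 : π₀ (π₀⁻¹ i) = i := π₀.apply_symm_apply i
      rw [h6] at h5
      show vec (π (π₀⁻¹ i)) = vec i
      rw [h4, h5]
    · intro π _ π' _ h
      exact mul_right_cancel h

theorem goodPerms_le {k : ℕ} (vec : Fin k → Fin 4) (c : Fin 4 → ℕ) (M : ℕ)
    (hc : ∀ v, (univ.filter (fun i => vec i = v)).card ≤ c v)
    (hM : ∏ v : Fin 4, (Fintype.card {i : Fin k // vec i = v}).factorial = M) :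
    (goodPerms (fun i => (vec i : ℕ))).card ≤
      M * cnt k (c 0) (c 1) (c 2) (c 3) false false false := by
  classical
  have h1 : ∀ w ∈ (goodPerms (fun i => (vec i : ℕ))).image
      (fun π : Equiv.Perm (Fin k) => vec ∘ ⇑π),
      ((goodPerms (fun i => (vec i : ℕ))).filter
        (fun π : Equiv.Perm (Fin k) => vec ∘ ⇑π = w)).card ≤ M := by
    intro w _
    refine (card_le_card ?_).trans (card_perms_fiber vec w M hM)
    exact filter_subset_filter _ (subset_univ _)
  have h2 := card_le_mul_card_image (goodPerms (fun i => (vec i : ℕ))) _ h1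
  refine h2.trans (Nat.mul_le_mul_left _ ?_)
  have h3 : (goodPerms (fun i => (vec i : ℕ))).image
      (fun π : Equiv.Perm (Fin k) => vec ∘ ⇑π) ⊆ words k c (fun _ => false) := by
    intro w hw
    obtain ⟨π, hπ, rfl⟩ := mem_image.1 hw
    refine mem_filter.2 ⟨mem_univ _, ?_, (mem_filter.1 hπ).2, fun _ => rfl⟩
    intro v
    have h4 : (univ.filter (fun i => (vec ∘ ⇑π) i = v)).card =
        (univ.filter (fun i => vec i = v)).card := by
      refine card_bij (fun i _ => π i) ?_ ?_ ?_
      · intro i hi
        exact mem_filter.2 ⟨mem_univ _, (mem_filter.1 hi).2⟩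
      · intro i _ j _ h
        exact π.injective h
      · intro i hi
        refine ⟨π⁻¹ i, mem_filter.2 ⟨mem_univ _, ?_⟩, by simp⟩
        simpa using (mem_filter.1 hi).2
    rw [h4]
    exact hc v
  exact (card_le_card h3).trans (card_words_le k c (fun _ => false) fun _ _ => rfl)

/-- Two letters `0`, then `a` letters `1`, then letters `2`, and two letters `3`. -/
def vec (k a : ℕ) (i : Fin k) : Fin 4 :=
  if (i : ℕ) < 2 then 0 else if (i : ℕ) < 2 + a then 1 else if (i : ℕ) < k - 2 then 2 else 3

/-- The range `13 ≤ k ≤ 26`. -/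
theorem small_range (n k : ℕ) (h1 : 13 ≤ k) (h2 : k ≤ 26) :
    N n k < (k / 2).factorial * ((k + 1) / 2).factorial := by
  have key : ∀ a b M V : ℕ,
      (∀ v, (univ.filter (fun i => vec k a i = v)).card ≤ (![2, a, b, 2] : Fin 4 → ℕ) v) →
      (∏ v : Fin 4, (Fintype.card {i : Fin k // vec k a i = v}).factorial = M) →
      (cnt k 2 a b 2 false false false = V) →
      M * V < (k / 2).factorial * ((k + 1) / 2).factorial →
      N n k < (k / 2).factorial * ((k + 1) / 2).factorial := by
    intro a b M V hc hM hV hlt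
    refine ((N_le n k _).trans (goodPerms_le (vec k a) ![2, a, b, 2] M hc hM)).trans_lt ?_
    have h6 : cnt k ((![2, a, b, 2] : Fin 4 → ℕ) 0) ((![2, a, b, 2] : Fin 4 → ℕ) 1)
      ((![2, a, b, 2] : Fin 4 → ℕ) 2) ((![2, a, b, 2] : Fin 4 → ℕ) 3) false false false = V := hV
    rw [h6]
    exact hlt
  interval_cases k
  · exact key 4 5 11520 305 (by decide +kernel) (by decide +kernel) (by decide +kernel) (by decide)
  · exact key 5 5 57600 410 (by decide +kernel) (by decide +kernel) (by decide +kernel) (by decide)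
  · exact key 5 6 345600 530 (by decide +kernel) (by decide +kernel) (by decide +kernel) (by decide)
  · exact key 6 6 2073600 691 (by decide +kernel) (by decide +kernel) (by decide +kernel) (by decide)
  · exact key 6 7 14515200 873 (by decide +kernel) (by decide +kernel) (by decide +kernel) (by decide)
  · exact key 7 7 101606400 1109 (by decide +kernel) (by decide +kernel) (by decide +kernel) (by decide)
  · exact key 7 8 812851200 1373 (by decide +kernel) (by decide +kernel) (by decide +kernel) (by decide)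
  · exact key 8 8 6502809600 1706 (by decide +kernel) (by decide +kernel) (by decide +kernel) (by decide)
  · exact key 8 9 58525286400 2075 (by decide +kernel) (by decide +kernel) (by decide +kernel) (by decide)
  · exact key 9 9 526727577600 2530 (by decide +kernel) (by decide +kernel) (by decide +kernel) (by decide)
  · exact key 9 10 5267275776000 3030 (by decide +kernel) (by decide +kernel) (by decide +kernel) (by decide)
  · exact key 10 10 52672757760000 3635 (by decide +kernel) (by decide +kernel) (by decide +kernel) (by decide)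
  · exact key 10 11 579400335360000 4295 (by decide +kernel) (by decide +kernel) (by decide +kernel) (by decide)
  · exact key 11 11 6373403688960000 5081 (by decide +kernel) (by decide +kernel) (by decide +kernel) (by decide)

/-- The number of completions of a word, without a restriction on the letters. -/
def J : ℕ → Bool → Bool → Bool → ℕ
  | 0, _, _, _ => 1
  | k + 1, x0, x1, x2 =>
    (if x0 = true then 0 else J k x1 x2 false) + (if x1 = true then 0 else J k true x2 false) +
      (if x2 = true then 0 else J k x1 true false) + J k x1 x2 true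

theorem cnt_le_J (k : ℕ) : ∀ (c0 c1 c2 c3 : ℕ) (x0 x1 x2 : Bool),
    cnt k c0 c1 c2 c3 x0 x1 x2 ≤ J k x0 x1 x2 := by
  induction k with
  | zero => intro c0 c1 c2 c3 x0 x1 x2; simp [cnt, J]
  | succ k ih =>
    intro c0 c1 c2 c3 x0 x1 x2
    unfold cnt J
    refine Nat.add_le_add (Nat.add_le_add (Nat.add_le_add ?_ ?_) ?_) ?_
    · by_cases hx : x0 = true
      · simp [hx]
      · rw [if_neg hx]
        split_ifs
        · exact Nat.zero_le _
        · exact ih _ _ _ _ _ _ _
    · by_cases hx : x1 = true
      · simp [hx]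
      · rw [if_neg hx]
        split_ifs
        · exact Nat.zero_le _
        · exact ih _ _ _ _ _ _ _
    · by_cases hx : x2 = true
      · simp [hx]
      · rw [if_neg hx]
        split_ifs
        · exact Nat.zero_le _
        · exact ih _ _ _ _ _ _ _
    · split_ifs
      · exact Nat.zero_le _
      · exact ih _ _ _ _ _ _ _

theorem card_inj_four (k : ℕ) : (inj k 4).card ≤ J k false false false := by
  have h1 : inj k 4 ⊆ words k (fun _ => k) (fun _ => false) := by
    intro w hw
    refine mem_filter.2 ⟨mem_univ _, fun v => ?_, (mem_filter.1 hw).2, fun _ => rfl⟩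
    refine (card_filter_le _ _).trans ?_
    simp
  exact (card_le_card h1).trans ((card_words_le k _ _ fun _ _ => rfl).trans (cnt_le_J k _ _ _ _ _ _ _))

theorem J0 : J 0 false false false = 1 ∧ J 0 true false false = 1 ∧ J 0 false true false = 1 ∧ J 0 true true false = 1 ∧ J 0 false false true = 1 ∧ J 0 true false true = 1 ∧ J 0 false true true = 1 ∧ J 0 true true true = 1 := by
  refine ⟨?_, ?_, ?_, ?_, ?_, ?_, ?_, ?_⟩ <;> rfl

theorem J1 : J 1 false false false = 4 ∧ J 1 true false false = 3 ∧ J 1 false true false = 3 ∧ J 1 true true false = 2 ∧ J 1 false false true = 3 ∧ J 1 true false true = 2 ∧ J 1 false true true = 2 ∧ J 1 true true true = 1 := by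
  obtain ⟨h0, h1, h2, h3, h4, h5, h6, h7⟩ := J0
  refine ⟨?_, ?_, ?_, ?_, ?_, ?_, ?_, ?_⟩ <;> rw [J] <;> simp [h0, h1, h2, h3, h4, h5, h6, h7]

theorem J2 : J 2 false false false = 13 ∧ J 2 true false false = 9 ∧ J 2 false true false = 7 ∧ J 2 true true false = 4 ∧ J 2 false false true = 7 ∧ J 2 true false true = 4 ∧ J 2 false true true = 3 ∧ J 2 true true true = 1 := by
  obtain ⟨h0, h1, h2, h3, h4, h5, h6, h7⟩ := J1
  refine ⟨?_, ?_, ?_, ?_, ?_, ?_, ?_, ?_⟩ <;> rw [J] <;> simp [h0, h1, h2, h3, h4, h5, h6, h7]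

theorem J3 : J 3 false false false = 36 ∧ J 3 true false false = 23 ∧ J 3 false true false = 17 ∧ J 3 true true false = 8 ∧ J 3 false false true = 14 ∧ J 3 true false true = 7 ∧ J 3 false true true = 5 ∧ J 3 true true true = 1 := by
  obtain ⟨h0, h1, h2, h3, h4, h5, h6, h7⟩ := J2
  refine ⟨?_, ?_, ?_, ?_, ?_, ?_, ?_, ?_⟩ <;> rw [J] <;> simp [h0, h1, h2, h3, h4, h5, h6, h7]

theorem J4 : J 4 false false false = 90 ∧ J 4 true false false = 54 ∧ J 4 false true false = 38 ∧ J 4 true true false = 15 ∧ J 4 false false true = 30 ∧ J 4 true false true = 13 ∧ J 4 false true true = 9 ∧ J 4 true true true = 1 := by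
  obtain ⟨h0, h1, h2, h3, h4, h5, h6, h7⟩ := J3
  refine ⟨?_, ?_, ?_, ?_, ?_, ?_, ?_, ?_⟩ <;> rw [J] <;> simp [h0, h1, h2, h3, h4, h5, h6, h7]

theorem J5 : J 5 false false false = 212 ∧ J 5 true false false = 122 ∧ J 5 false true false = 82 ∧ J 5 true true false = 28 ∧ J 5 false false true = 62 ∧ J 5 true false true = 24 ∧ J 5 false true true = 16 ∧ J 5 true true true = 1 := by
  obtain ⟨h0, h1, h2, h3, h4, h5, h6, h7⟩ := J4
  refine ⟨?_, ?_, ?_, ?_, ?_, ?_, ?_, ?_⟩ <;> rw [J] <;> simp [h0, h1, h2, h3, h4, h5, h6, h7]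

theorem J6 : J 6 false false false = 478 ∧ J 6 true false false = 266 ∧ J 6 false true false = 174 ∧ J 6 true true false = 52 ∧ J 6 false false true = 126 ∧ J 6 true false true = 44 ∧ J 6 false true true = 29 ∧ J 6 true true true = 1 := by
  obtain ⟨h0, h1, h2, h3, h4, h5, h6, h7⟩ := J5
  refine ⟨?_, ?_, ?_, ?_, ?_, ?_, ?_, ?_⟩ <;> rw [J] <;> simp [h0, h1, h2, h3, h4, h5, h6, h7]

theorem J7 : J 7 false false false = 1044 ∧ J 7 true false false = 566 ∧ J 7 false true false = 362 ∧ J 7 true true false = 96 ∧ J 7 false false true = 255 ∧ J 7 true false true = 81 ∧ J 7 false true true = 53 ∧ J 7 true true true = 1 := by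
  obtain ⟨h0, h1, h2, h3, h4, h5, h6, h7⟩ := J6
  refine ⟨?_, ?_, ?_, ?_, ?_, ?_, ?_, ?_⟩ <;> rw [J] <;> simp [h0, h1, h2, h3, h4, h5, h6, h7]

theorem J8 : J 8 false false false = 2227 ∧ J 8 true false false = 1183 ∧ J 8 false true false = 743 ∧ J 8 true true false = 177 ∧ J 8 false false true = 511 ∧ J 8 true false true = 149 ∧ J 8 false true true = 97 ∧ J 8 true true true = 1 := by
  obtain ⟨h0, h1, h2, h3, h4, h5, h6, h7⟩ := J7
  refine ⟨?_, ?_, ?_, ?_, ?_, ?_, ?_, ?_⟩ <;> rw [J] <;> simp [h0, h1, h2, h3, h4, h5, h6, h7]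

theorem J9 : J 9 false false false = 4664 ∧ J 9 true false false = 2437 ∧ J 9 false true false = 1509 ∧ J 9 true true false = 326 ∧ J 9 false false true = 1017 ∧ J 9 true false true = 274 ∧ J 9 false true true = 178 ∧ J 9 true true true = 1 := by
  obtain ⟨h0, h1, h2, h3, h4, h5, h6, h7⟩ := J8
  refine ⟨?_, ?_, ?_, ?_, ?_, ?_, ?_, ?_⟩ <;> rw [J] <;> simp [h0, h1, h2, h3, h4, h5, h6, h7]

theorem J10 : J 10 false false false = 9627 ∧ J 10 true false false = 4963 ∧ J 10 false true false = 3037 ∧ J 10 true true false = 600 ∧ J 10 false false true = 2013 ∧ J 10 true false true = 504 ∧ J 10 false true true = 327 ∧ J 10 true true true = 1 := by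
  obtain ⟨h0, h1, h2, h3, h4, h5, h6, h7⟩ := J9
  refine ⟨?_, ?_, ?_, ?_, ?_, ?_, ?_, ?_⟩ <;> rw [J] <;> simp [h0, h1, h2, h3, h4, h5, h6, h7]

theorem J11 : J 11 false false false = 19640 ∧ J 11 true false false = 10013 ∧ J 11 false true false = 6067 ∧ J 11 true true false = 1104 ∧ J 11 false false true = 3964 ∧ J 11 true false true = 927 ∧ J 11 false true true = 601 ∧ J 11 true true true = 1 := by
  obtain ⟨h0, h1, h2, h3, h4, h5, h6, h7⟩ := J10
  refine ⟨?_, ?_, ?_, ?_, ?_, ?_, ?_, ?_⟩ <;> rw [J] <;> simp [h0, h1, h2, h3, h4, h5, h6, h7]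

theorem J12 : J 12 false false false = 39684 ∧ J 12 true false false = 20044 ∧ J 12 false true false = 12044 ∧ J 12 true true false = 2031 ∧ J 12 false false true = 7772 ∧ J 12 true false true = 1705 ∧ J 12 false true true = 1105 ∧ J 12 true true true = 1 := by
  obtain ⟨h0, h1, h2, h3, h4, h5, h6, h7⟩ := J11
  refine ⟨?_, ?_, ?_, ?_, ?_, ?_, ?_, ?_⟩ <;> rw [J] <;> simp [h0, h1, h2, h3, h4, h5, h6, h7]

theorem J13 : J 13 false false false = 79544 ∧ J 13 true false false = 39860 ∧ J 13 false true false = 23780 ∧ J 13 true true false = 3736 ∧ J 13 false false true = 15180 ∧ J 13 true false true = 3136 ∧ J 13 false true true = 2032 ∧ J 13 true true true = 1 := by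
  obtain ⟨h0, h1, h2, h3, h4, h5, h6, h7⟩ := J12
  refine ⟨?_, ?_, ?_, ?_, ?_, ?_, ?_, ?_⟩ <;> rw [J] <;> simp [h0, h1, h2, h3, h4, h5, h6, h7]

theorem J14 : J 14 false false false = 158364 ∧ J 14 true false false = 78820 ∧ J 14 false true false = 46732 ∧ J 14 true true false = 6872 ∧ J 14 false false true = 29548 ∧ J 14 true false true = 5768 ∧ J 14 false true true = 3737 ∧ J 14 true true true = 1 := by
  obtain ⟨h0, h1, h2, h3, h4, h5, h6, h7⟩ := J13
  refine ⟨?_, ?_, ?_, ?_, ?_, ?_, ?_, ?_⟩ <;> rw [J] <;> simp [h0, h1, h2, h3, h4, h5, h6, h7]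

theorem J15 : J 15 false false false = 313464 ∧ J 15 true false false = 155100 ∧ J 15 false true false = 91460 ∧ J 15 true true false = 12640 ∧ J 15 false false true = 57341 ∧ J 15 true false true = 10609 ∧ J 15 false true true = 6873 ∧ J 15 true true true = 1 := by
  obtain ⟨h0, h1, h2, h3, h4, h5, h6, h7⟩ := J14
  refine ⟨?_, ?_, ?_, ?_, ?_, ?_, ?_, ?_⟩ <;> rw [J] <;> simp [h0, h1, h2, h3, h4, h5, h6, h7]

theorem J16 : J 16 false false false = 617365 ∧ J 16 true false false = 303901 ∧ J 16 false true false = 178349 ∧ J 16 true true false = 23249 ∧ J 16 false false true = 110973 ∧ J 16 true false true = 19513 ∧ J 16 false true true = 12641 ∧ J 16 true true true = 1 := by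
  obtain ⟨h0, h1, h2, h3, h4, h5, h6, h7⟩ := J15
  refine ⟨?_, ?_, ?_, ?_, ?_, ?_, ?_, ?_⟩ <;> rw [J] <;> simp [h0, h1, h2, h3, h4, h5, h6, h7]

theorem J17 : J 17 false false false = 1210588 ∧ J 17 true false false = 593223 ∧ J 17 false true false = 346663 ∧ J 17 true true false = 42762 ∧ J 17 false false true = 214239 ∧ J 17 true false true = 35890 ∧ J 17 false true true = 23250 ∧ J 17 true true true = 1 := by
  obtain ⟨h0, h1, h2, h3, h4, h5, h6, h7⟩ := J16
  refine ⟨?_, ?_, ?_, ?_, ?_, ?_, ?_, ?_⟩ <;> rw [J] <;> simp [h0, h1, h2, h3, h4, h5, h6, h7]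

theorem J18 : J 18 false false false = 2364713 ∧ J 18 true false false = 1154125 ∧ J 18 false true false = 671875 ∧ J 18 true true false = 78652 ∧ J 18 false false true = 412675 ∧ J 18 true false true = 66012 ∧ J 18 false true true = 42763 ∧ J 18 true true true = 1 := by
  obtain ⟨h0, h1, h2, h3, h4, h5, h6, h7⟩ := J17
  refine ⟨?_, ?_, ?_, ?_, ?_, ?_, ?_, ?_⟩ <;> rw [J] <;> simp [h0, h1, h2, h3, h4, h5, h6, h7]

theorem J19 : J 19 false false false = 4603388 ∧ J 19 true false false = 2238675 ∧ J 19 false true false = 1298789 ∧ J 19 true true false = 144664 ∧ J 19 false false true = 793290 ∧ J 19 true false true = 121415 ∧ J 19 false true true = 78653 ∧ J 19 true true true = 1 := by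
  obtain ⟨h0, h1, h2, h3, h4, h5, h6, h7⟩ := J18
  refine ⟨?_, ?_, ?_, ?_, ?_, ?_, ?_, ?_⟩ <;> rw [J] <;> simp [h0, h1, h2, h3, h4, h5, h6, h7]

theorem J20 : J 20 false false false = 8934142 ∧ J 20 true false false = 4330754 ∧ J 20 false true false = 2504754 ∧ J 20 true true false = 266079 ∧ J 20 false false true = 1522106 ∧ J 20 true false true = 223317 ∧ J 20 false true true = 144665 ∧ J 20 true true true = 1 := by
  obtain ⟨h0, h1, h2, h3, h4, h5, h6, h7⟩ := J19
  refine ⟨?_, ?_, ?_, ?_, ?_, ?_, ?_, ?_⟩ <;> rw [J] <;> simp [h0, h1, h2, h3, h4, h5, h6, h7]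

theorem J21 : J 21 false false false = 17291756 ∧ J 21 true false false = 8357614 ∧ J 21 false true false = 4820150 ∧ J 21 true true false = 489396 ∧ J 21 false false true = 2915498 ∧ J 21 true false true = 410744 ∧ J 21 false true true = 266080 ∧ J 21 true true true = 1 := by
  obtain ⟨h0, h1, h2, h3, h4, h5, h6, h7⟩ := J20
  refine ⟨?_, ?_, ?_, ?_, ?_, ?_, ?_, ?_⟩ <;> rw [J] <;> simp [h0, h1, h2, h3, h4, h5, h6, h7]

theorem J22 : J 22 false false false = 33385018 ∧ J 22 true false false = 16093262 ∧ J 22 false true false = 9257754 ∧ J 22 true true false = 900140 ∧ J 22 false false true = 5575626 ∧ J 22 true false true = 755476 ∧ J 22 false true true = 489397 ∧ J 22 true true true = 1 := by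
  obtain ⟨h0, h1, h2, h3, h4, h5, h6, h7⟩ := J21
  refine ⟨?_, ?_, ?_, ?_, ?_, ?_, ?_, ?_⟩ <;> rw [J] <;> simp [h0, h1, h2, h3, h4, h5, h6, h7]

theorem J23 : J 23 false false false = 64311660 ∧ J 23 true false false = 30926642 ∧ J 23 false true false = 17748878 ∧ J 23 true true false = 1655616 ∧ J 23 false false true = 10647291 ∧ J 23 true false true = 1389537 ∧ J 23 false true true = 900141 ∧ J 23 true true true = 1 := by
  obtain ⟨h0, h1, h2, h3, h4, h5, h6, h7⟩ := J22
  refine ⟨?_, ?_, ?_, ?_, ?_, ?_, ?_, ?_⟩ <;> rw [J] <;> simp [h0, h1, h2, h3, h4, h5, h6, h7]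

theorem J24 : J 24 false false false = 123634471 ∧ J 24 true false false = 59322811 ∧ J 24 false true false = 33971795 ∧ J 24 true true false = 3045153 ∧ J 24 false false true = 20304635 ∧ J 24 true false true = 2555757 ∧ J 24 false true true = 1655617 ∧ J 24 true true true = 1 := by
  obtain ⟨h0, h1, h2, h3, h4, h5, h6, h7⟩ := J23
  refine ⟨?_, ?_, ?_, ?_, ?_, ?_, ?_, ?_⟩ <;> rw [J] <;> simp [h0, h1, h2, h3, h4, h5, h6, h7]

theorem J25 : J 25 false false false = 237233712 ∧ J 25 true false false = 113599241 ∧ J 25 false true false = 64923721 ∧ J 25 true true false = 5600910 ∧ J 25 false false true = 38672565 ∧ J 25 true false true = 4700770 ∧ J 25 false true true = 3045154 ∧ J 25 true true true = 1 := by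
  obtain ⟨h0, h1, h2, h3, h4, h5, h6, h7⟩ := J24
  refine ⟨?_, ?_, ?_, ?_, ?_, ?_, ?_, ?_⟩ <;> rw [J] <;> simp [h0, h1, h2, h3, h4, h5, h6, h7]

theorem J26 : J 26 false false false = 454429239 ∧ J 26 true false false = 217195527 ∧ J 26 false true false = 123900921 ∧ J 26 true true false = 10301680 ∧ J 26 false false true = 73569785 ∧ J 26 true false true = 8646064 ∧ J 26 false true true = 5600911 ∧ J 26 true true true = 1 := by
  obtain ⟨h0, h1, h2, h3, h4, h5, h6, h7⟩ := J25
  refine ⟨?_, ?_, ?_, ?_, ?_, ?_, ?_, ?_⟩ <;> rw [J] <;> simp [h0, h1, h2, h3, h4, h5, h6, h7]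

theorem J27 : J 27 false false false = 869095472 ∧ J 27 true false false = 414666233 ∧ J 27 false true false = 236143271 ∧ J 27 true true false = 18947744 ∧ J 27 false false true = 139803512 ∧ J 27 true false true = 15902591 ∧ J 27 false true true = 10301681 ∧ J 27 true true true = 1 := by
  obtain ⟨h0, h1, h2, h3, h4, h5, h6, h7⟩ := J26
  refine ⟨?_, ?_, ?_, ?_, ?_, ?_, ?_, ?_⟩ <;> rw [J] <;> simp [h0, h1, h2, h3, h4, h5, h6, h7]

theorem J_succ_le : ∀ (j : ℕ) (x0 x1 x2 : Bool), J (13 + j + 1) x0 x1 x2 ≤ 2 * J (13 + j) x0 x1 x2 := by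
  intro j
  induction j with
  | zero =>
    intro x0 x1 x2
    obtain ⟨h0, h1, h2, h3, h4, h5, h6, h7⟩ := J13
    obtain ⟨g0, g1, g2, g3, g4, g5, g6, g7⟩ := J14
    cases x0 <;> cases x1 <;> cases x2 <;> simp [h0, h1, h2, h3, h4, h5, h6, h7, g0, g1, g2, g3, g4, g5, g6, g7]
  | succ j ih =>
    intro x0 x1 x2
    have e1 : J (13 + (j + 1) + 1) x0 x1 x2 =
        (if x0 = true then 0 else J (13 + j + 1) x1 x2 false) +
        (if x1 = true then 0 else J (13 + j + 1) true x2 false) +
        (if x2 = true then 0 else J (13 + j + 1) x1 true false) + J (13 + j + 1) x1 x2 true := rfl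
    have e2 : J (13 + (j + 1)) x0 x1 x2 =
        (if x0 = true then 0 else J (13 + j) x1 x2 false) +
        (if x1 = true then 0 else J (13 + j) true x2 false) +
        (if x2 = true then 0 else J (13 + j) x1 true false) + J (13 + j) x1 x2 true := rfl
    have i1 := ih x1 x2 false
    have i2 := ih true x2 false
    have i3 := ih x1 true false
    have i4 := ih x1 x2 true
    rw [e1, e2]
    split_ifs <;> omega

/-- The central binomial coefficients at most double. -/
theorem choose_succ_le (k : ℕ) : (k + 1).choose ((k + 1) / 2) ≤ 2 * k.choose (k / 2) := by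
  rcases Nat.eq_zero_or_pos ((k + 1) / 2) with h | h
  · rw [h, Nat.choose_zero_right]
    have : 0 < k.choose (k / 2) := Nat.choose_pos (Nat.div_le_self _ _)
    omega
  · obtain ⟨r, hr⟩ := Nat.exists_eq_succ_of_ne_zero h.ne'
    rw [hr, Nat.succ_eq_add_one, Nat.choose_succ_succ']
    have h1 := Nat.choose_le_middle r k
    have h2 := Nat.choose_le_middle (r + 1) k
    omega

theorem large_range (k : ℕ) (hk : 27 ≤ k) :
    J k false false false * k.choose (k / 2) < 4 ^ k := by
  obtain ⟨j, rfl⟩ := Nat.exists_eq_add_of_le hk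
  induction j with
  | zero =>
    have h := J27.1
    rw [add_zero, h]
    decide +kernel
  | succ j ih =>
    have h1 := J_succ_le (14 + j) false false false
    have h2 := choose_succ_le (27 + j)
    have h3 := ih (by omega)
    have e1 : 13 + (14 + j) + 1 = 27 + (j + 1) := by ring
    have e2 : 13 + (14 + j) = 27 + j := by ring
    rw [e1, e2] at h1
    rw [show 27 + j + 1 = 27 + (j + 1) by ring] at h2
    calc J (27 + (j + 1)) false false false * (27 + (j + 1)).choose ((27 + (j + 1)) / 2)
        ≤ (2 * J (27 + j) false false false) * (2 * (27 + j).choose ((27 + j) / 2)) :=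
          Nat.mul_le_mul h1 h2
      _ = 4 * (J (27 + j) false false false * (27 + j).choose ((27 + j) / 2)) := by ring
      _ < 4 * 4 ^ (27 + j) := by omega
      _ = 4 ^ (27 + (j + 1)) := by ring

theorem large_k (n k : ℕ) (hk : 27 ≤ k) :
    N n k < (k / 2).factorial * ((k + 1) / 2).factorial := by
  have h1 := (avg n k 4).trans (Nat.mul_le_mul_left _ (card_inj_four k))
  have h2 := large_range k hk
  have h3 := Nat.choose_mul_factorial_mul_factorial (Nat.div_le_self k 2)
  have h4 : k - k / 2 = (k + 1) / 2 := by omega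
  rw [h4] at h3
  have hC : 0 < k.choose (k / 2) := Nat.choose_pos (Nat.div_le_self _ _)
  have h5 : 4 ^ k * (N n k * k.choose (k / 2)) < 4 ^ k *
      (((k / 2).factorial * ((k + 1) / 2).factorial) * k.choose (k / 2)) := by
    calc 4 ^ k * (N n k * k.choose (k / 2)) = (4 ^ k * N n k) * k.choose (k / 2) := by ring
      _ ≤ (k.factorial * J k false false false) * k.choose (k / 2) := Nat.mul_le_mul_right _ h1
      _ = k.factorial * (J k false false false * k.choose (k / 2)) := by ring
      _ < k.factorial * 4 ^ k := Nat.mul_lt_mul_of_pos_left h2 (Nat.factorial_pos k)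
      _ = 4 ^ k * (((k / 2).factorial * ((k + 1) / 2).factorial) * k.choose (k / 2)) := by
        rw [← h3]; ring
  exact lt_of_mul_lt_mul_right (lt_of_mul_lt_mul_left h5 (Nat.zero_le _)) (Nat.zero_le _)

/-- **The listed upper bound is never attained for `k ≥ 13`.** -/
theorem result : ∀ n k : ℕ, 13 ≤ k →
    (⨅ a : Fin k → ZMod n,
        {π : Equiv.Perm (Fin k) |
          Function.Injective (fun i : Fin k => a (π i) + (((i : ℕ)) : ZMod n))}.ncard)
      < (k / 2).factorial * ((k + 1) / 2).factorial := by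
  intro n k hk
  rcases le_or_gt k 26 with h | h
  · exact small_range n k hk h
  · exact large_k n k h

end Pool.Agent.Results.MP_31c4fb_co.SaturationValue
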