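import Mathlib

/-!
# Upper bounds for the minimal number of distinct-sum permutations

`N n k` is the number in the frozen statement of the problem.  `avg`: averaging over the vectors with entries in
`{0, ..., q - 1}`.  `card_inj_le`: the number of maps `b : Fin k → Fin (m L)` with distinct `b i + i` is at most
`(L!)^(k / L + m + 2) (m + 1)^k` (cut the line into blocks of length `L`; record in which block each `b i + i` lies).
`exponential_bound`: `N n k ≤ C (1/e + ε)^k k!`.
-/

set_option autoImplicit false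

open Finset

namespace Pool.Agent.Results.MP_31c4fb_co.ExponentialUpperBound

/-- `N(n, k)`: the least number, over all vectors `a` with `k` entries in `ℤ/n`, of permutations `π`
for which the sums `a (π i) + i` are pairwise distinct (positions `0, …, k - 1`). -/
noncomputable def N (n k : ℕ) : ℕ :=
  ⨅ a : Fin k → ZMod n,
    {π : Equiv.Perm (Fin k) |
      Function.Injective (fun i : Fin k => a (π i) + (((i : ℕ)) : ZMod n))}.ncard

/-- Permutations with distinct integer sums. -/
def goodPerms {k : ℕ} (a : Fin k → ℕ) : Finset (Equiv.Perm (Fin k)) :=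
  univ.filter (fun π => Function.Injective (fun i : Fin k => a (π i) + (i : ℕ)))

theorem N_le (n k : ℕ) (a : Fin k → ℕ) : N n k ≤ (goodPerms a).card := by
  unfold N
  refine (ciInf_le (OrderBot.bddBelow _) (fun i => ((a i : ℕ) : ZMod n))).trans ?_
  rw [← Set.ncard_coe_finset]
  refine Set.ncard_le_ncard ?_ (Finset.finite_toSet _)
  intro π hπ
  simp only [goodPerms, coe_filter, mem_univ, true_and, Set.mem_ofPred_eq]
  intro i j hij
  apply hπ
  have h2 := congrArg (Nat.cast : ℕ → ZMod n) hij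
  simpa using h2

/-- Words over `0, …, q - 1` with distinct sums. -/
def inj (k q : ℕ) : Finset (Fin k → Fin q) :=
  univ.filter (fun b => Function.Injective (fun i : Fin k => ((b i : ℕ)) + (i : ℕ)))

theorem avg (n k q : ℕ) : q ^ k * N n k ≤ k.factorial * (inj k q).card := by
  have h1 : ∑ _a : Fin k → Fin q, N n k ≤
      ∑ a : Fin k → Fin q, (goodPerms (fun i => (a i : ℕ))).card :=
    sum_le_sum fun a _ => N_le n k _
  rw [sum_const, smul_eq_mul, card_univ, Fintype.card_fun, Fintype.card_fin,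
    Fintype.card_fin] at h1
  refine h1.trans ?_
  simp only [goodPerms, card_filter]
  rw [sum_comm]
  have h2 : ∀ π : Equiv.Perm (Fin k), ∑ a : Fin k → Fin q,
      (if Function.Injective (fun i : Fin k => ((a (π i) : ℕ)) + (i : ℕ)) then 1 else 0) =
      (inj k q).card := by
    intro π
    rw [inj, card_filter]
    exact Equiv.sum_comp (Equiv.arrowCongr π.symm (Equiv.refl (Fin q)))
      (fun b : Fin k → Fin q =>
        if Function.Injective (fun i : Fin k => ((b i : ℕ)) + (i : ℕ)) then 1 else 0)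
  rw [sum_congr rfl fun π _ => h2 π, sum_const, smul_eq_mul, card_univ, Fintype.card_perm,
    Fintype.card_fin]

theorem descFactorial_le_factorial (n k : ℕ) : n.descFactorial k ≤ n.factorial := by
  rcases le_or_gt k n with h | h
  · have := Nat.factorial_mul_descFactorial h
    calc n.descFactorial k ≤ (n - k).factorial * n.descFactorial k :=
          Nat.le_mul_of_pos_left _ (Nat.factorial_pos _)
      _ = n.factorial := this
  · rw [Nat.descFactorial_of_lt h]; exact Nat.zero_le _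

theorem card_inj_le (k m L : ℕ) (hL : 0 < L) :
    (inj k (m * L)).card ≤ (L.factorial) ^ (k / L + m + 2) * (m + 1) ^ k := by
  classical
  have hlt : ∀ (b : Fin k → Fin (m * L)) (i : Fin k),
      ((b i : ℕ) + i) / L - (i : ℕ) / L < m + 1 := by
    intro b i
    have h1 : ((b i : ℕ)) < m * L := (b i).2
    have h2 : (i : ℕ) < ((i : ℕ) / L + 1) * L := by
      have := Nat.lt_div_mul_add (a := (i : ℕ)) hL
      nlinarith
    have h3 : ((b i : ℕ) + i) / L < m + ((i : ℕ) / L + 1) := by
      rw [Nat.div_lt_iff_lt_mul hL, add_mul]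
      omega
    omega
  let f : (Fin k → Fin (m * L)) → (Fin k → Fin (m + 1)) := fun b i =>
    ⟨((b i : ℕ) + i) / L - (i : ℕ) / L, hlt b i⟩
  have key : ∀ δ ∈ (inj k (m * L)).image f,
      ((inj k (m * L)).filter (fun b => f b = δ)).card ≤ (L.factorial) ^ (k / L + m + 2) := by
    intro δ _
    let T := k / L + m + 2
    let P : Type := (t : Fin T) → ({i : Fin k // (i : ℕ) / L + (δ i : ℕ) = t} ↪ Fin L)
    have hdiv : ∀ (b : Fin k → Fin (m * L)), f b = δ → ∀ i : Fin k,
        ((b i : ℕ) + i) / L = (i : ℕ) / L + (δ i : ℕ) := by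
      intro b hb i
      have h1 : (δ i : ℕ) = ((b i : ℕ) + i) / L - (i : ℕ) / L := by rw [← hb]
      have h2 : (i : ℕ) / L ≤ ((b i : ℕ) + i) / L := Nat.div_le_div_right (Nat.le_add_left _ _)
      omega
    let g : {b // b ∈ (inj k (m * L)).filter (fun b => f b = δ)} → P := fun b t =>
      ⟨fun i => ⟨((b.1 i.1 : ℕ) + (i.1 : ℕ)) % L, Nat.mod_lt _ hL⟩, by
        intro i j hij
        have hb := (mem_filter.1 b.2)
        have hinj : Function.Injective (fun i : Fin k => ((b.1 i : ℕ)) + (i : ℕ)) :=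
          (mem_filter.1 hb.1).2
        have hmod : ((b.1 i.1 : ℕ) + (i.1 : ℕ)) % L = ((b.1 j.1 : ℕ) + (j.1 : ℕ)) % L := by
          simpa using hij
        have hd : ((b.1 i.1 : ℕ) + (i.1 : ℕ)) / L = ((b.1 j.1 : ℕ) + (j.1 : ℕ)) / L := by
          rw [hdiv b.1 hb.2 i.1, hdiv b.1 hb.2 j.1, i.2, j.2]
        apply Subtype.ext
        apply hinj
        show ((b.1 i.1 : ℕ) + (i.1 : ℕ)) = ((b.1 j.1 : ℕ) + (j.1 : ℕ))
        rw [← Nat.div_add_mod ((b.1 i.1 : ℕ) + (i.1 : ℕ)) L, hd, hmod, Nat.div_add_mod]⟩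
    have hg : Function.Injective g := by
      intro b b' hbb
      apply Subtype.ext
      funext i
      have hb := (mem_filter.1 b.2)
      have hb' := (mem_filter.1 b'.2)
      have hT : (i : ℕ) / L + (δ i : ℕ) < T := by
        have h1 : (i : ℕ) / L ≤ k / L := Nat.div_le_div_right i.2.le
        have h2 : (δ i : ℕ) < m + 1 := (δ i).2
        show (i : ℕ) / L + (δ i : ℕ) < k / L + m + 2
        omega
      have h1 := congrFun hbb ⟨(i : ℕ) / L + (δ i : ℕ), hT⟩
      have h2 := congrArg (fun e => (e ⟨i, rfl⟩ : Fin L)) h1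
      have hmod : ((b.1 i : ℕ) + (i : ℕ)) % L = ((b'.1 i : ℕ) + (i : ℕ)) % L := by
        have h3 := congrArg Fin.val h2
        exact h3
      have hd : ((b.1 i : ℕ) + (i : ℕ)) / L = ((b'.1 i : ℕ) + (i : ℕ)) / L := by
        rw [hdiv b.1 hb.2 i, hdiv b'.1 hb'.2 i]
      have h4 : ((b.1 i : ℕ) + (i : ℕ)) = ((b'.1 i : ℕ) + (i : ℕ)) := by
        rw [← Nat.div_add_mod ((b.1 i : ℕ) + (i : ℕ)) L, hd, hmod, Nat.div_add_mod]
      apply Fin.ext
      omega
    have h5 := Fintype.card_le_of_injective g hg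
    rw [Fintype.card_coe] at h5
    refine h5.trans ?_
    have h6 : Fintype.card P = ∏ t : Fin T, L.descFactorial
        (Fintype.card {i : Fin k // (i : ℕ) / L + (δ i : ℕ) = t}) := by
      rw [Fintype.card_pi]
      refine prod_congr rfl fun t _ => ?_
      rw [Fintype.card_embedding_eq, Fintype.card_fin]
    rw [h6]
    calc ∏ t : Fin T, L.descFactorial
          (Fintype.card {i : Fin k // (i : ℕ) / L + (δ i : ℕ) = t})
        ≤ ∏ _t : Fin T, L.factorial := prod_le_prod' fun t _ => descFactorial_le_factorial _ _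
      _ = (L.factorial) ^ (k / L + m + 2) := by simp [T]
  have h7 := card_le_mul_card_image (inj k (m * L)) _ key
  refine h7.trans (Nat.mul_le_mul_left _ ?_)
  refine (card_le_univ _).trans ?_
  simp


theorem factorial_le_exp (L : ℕ) (hL : 0 < L) :
    (L.factorial : ℝ) ≤ Real.exp 1 * Real.sqrt L * ((L : ℝ) / Real.exp 1) ^ L := by
  obtain ⟨l, rfl⟩ := Nat.exists_eq_succ_of_ne_zero hL.ne'
  have h1 := Stirling.stirlingSeq'_antitone (Nat.zero_le l)
  simp only [Function.comp_apply, Nat.succ_eq_add_one, zero_add, Stirling.stirlingSeq_one] at h1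
  unfold Stirling.stirlingSeq at h1
  have hpos : (0 : ℝ) < Real.sqrt (2 * ((l + 1 : ℕ) : ℝ)) *
      (((l + 1 : ℕ) : ℝ) / Real.exp 1) ^ (l + 1) := by positivity
  rw [div_le_iff₀ hpos] at h1
  refine h1.trans (le_of_eq ?_)
  rw [Real.sqrt_mul (by norm_num)]
  have h2 : (0 : ℝ) < Real.sqrt 2 := by positivity
  field_simp

/-- `L! ≤ (L (1/e + ε))^L` for some large `L`. -/
theorem exists_factorial_le (ε : ℝ) (hε : 0 < ε) :
    ∃ L : ℕ, 3 ≤ L ∧ (L.factorial : ℝ) ≤ ((L : ℝ) * (Real.exp (-1) + ε)) ^ L := by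
  -- exponential growth beats the square root
  have h1 : (1 : ℝ) < 1 + Real.exp 1 * ε := by
    have := mul_pos (Real.exp_pos 1) hε
    linarith
  have h2 := tendsto_pow_const_div_const_pow_of_one_lt 1 h1
  have h3 : ∀ᶠ n : ℕ in Filter.atTop,
      (n : ℝ) ^ 1 / (1 + Real.exp 1 * ε) ^ n < Real.exp (-1) :=
    h2.eventually (gt_mem_nhds (Real.exp_pos _))
  obtain ⟨L, hL1, hL2⟩ := (h3.and (Filter.eventually_ge_atTop 3)).exists
  refine ⟨L, hL2, ?_⟩
  have hL0 : 0 < L := by omega
  refine (factorial_le_exp L hL0).trans ?_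
  have h4 : (0 : ℝ) < (1 + Real.exp 1 * ε) ^ L := by positivity
  rw [div_lt_iff₀ h4, pow_one] at hL1
  have h5 : Real.exp 1 * (L : ℝ) ≤ (1 + Real.exp 1 * ε) ^ L := by
    have := mul_le_mul_of_nonneg_left hL1.le (Real.exp_pos 1).le
    rw [← mul_assoc, ← Real.exp_add] at this
    simpa using this
  have h6 : Real.sqrt L ≤ L := by
    rw [Real.sqrt_le_left (by positivity)]
    have : (1 : ℝ) ≤ L := by exact_mod_cast hL0
    nlinarith
  have h7 : (L : ℝ) * (Real.exp (-1) + ε) =
      ((L : ℝ) / Real.exp 1) * (1 + Real.exp 1 * ε) := by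
    rw [Real.exp_neg]
    field_simp
  rw [h7, mul_pow, mul_comm]
  refine mul_le_mul_of_nonneg_left ?_ (by positivity)
  refine le_trans ?_ h5
  exact mul_le_mul_of_nonneg_left h6 (Real.exp_pos 1).le

theorem exponential_bound (ε : ℝ) (hε : 0 < ε) :
    ∃ C : ℝ, ∀ n k : ℕ, (N n k : ℝ) ≤ C * (Real.exp (-1) + ε) ^ k * (k.factorial : ℝ) := by
  obtain ⟨L, hL3, hL⟩ := exists_factorial_le (ε / 2) (by positivity)
  have hL0 : 0 < L := by omega
  set y : ℝ := (L : ℝ) * (Real.exp (-1) + ε / 2) with hy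
  have hy1 : 1 ≤ y := by
    have h1 : (3 : ℝ) ≤ L := by exact_mod_cast hL3
    have h2 : Real.exp 1 < 3 := by
      have := Real.exp_one_lt_d9
      linarith
    have h3 : 1 ≤ (L : ℝ) * Real.exp (-1) := by
      rw [Real.exp_neg, ← div_eq_mul_inv, le_div_iff₀ (Real.exp_pos 1)]
      linarith
    have h4 : 0 ≤ (L : ℝ) * (ε / 2) := by positivity
    rw [hy, mul_add]
    linarith
  obtain ⟨m, hm⟩ := exists_nat_gt ((Real.exp (-1) + ε / 2) / (ε / 2))
  have hm0 : (0 : ℝ) < m := lt_trans (by positivity) hm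
  have hmr : ((m : ℝ) + 1) / m * (Real.exp (-1) + ε / 2) ≤ Real.exp (-1) + ε := by
    rw [div_lt_iff₀ (by positivity)] at hm
    rw [div_mul_eq_mul_div, div_le_iff₀ hm0]
    linarith
  refine ⟨(L.factorial : ℝ) ^ (m + 2), fun n k => ?_⟩
  have h1 := (avg n k (m * L)).trans (Nat.mul_le_mul_left _ (card_inj_le k m L hL0))
  have h2 : ((m : ℝ) * L) ^ k * (N n k : ℝ) ≤
      (k.factorial : ℝ) * ((L.factorial : ℝ) ^ (k / L + m + 2) * ((m : ℝ) + 1) ^ k) := by
    exact_mod_cast h1
  have h3 : (L.factorial : ℝ) ^ (k / L + m + 2) ≤ y ^ k * (L.factorial : ℝ) ^ (m + 2) := by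
    rw [add_assoc, pow_add]
    refine mul_le_mul_of_nonneg_right ?_ (by positivity)
    calc (L.factorial : ℝ) ^ (k / L) ≤ (y ^ L) ^ (k / L) :=
          pow_le_pow_left₀ (by positivity) hL _
      _ = y ^ (L * (k / L)) := (pow_mul _ _ _).symm
      _ ≤ y ^ k := pow_le_pow_right₀ hy1 (Nat.mul_div_le k L)
  have hLr : (0 : ℝ) < L := by exact_mod_cast hL0
  have h4 : (0 : ℝ) < ((m : ℝ) * L) ^ k := by positivity
  have h5 : (N n k : ℝ) ≤ (k.factorial : ℝ) *
      (y ^ k * (L.factorial : ℝ) ^ (m + 2) * ((m : ℝ) + 1) ^ k) / ((m : ℝ) * L) ^ k := by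
    rw [le_div_iff₀ h4, mul_comm]
    refine h2.trans ?_
    refine mul_le_mul_of_nonneg_left ?_ (by positivity)
    exact mul_le_mul_of_nonneg_right h3 (by positivity)
  refine h5.trans ?_
  have h6 : (k.factorial : ℝ) *
      (y ^ k * (L.factorial : ℝ) ^ (m + 2) * ((m : ℝ) + 1) ^ k) / ((m : ℝ) * L) ^ k =
      (L.factorial : ℝ) ^ (m + 2) *
        (((m : ℝ) + 1) / m * (Real.exp (-1) + ε / 2)) ^ k * (k.factorial : ℝ) := by
    rw [hy, mul_pow, mul_pow, mul_pow, div_pow]
    field_simp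
  rw [h6]
  refine mul_le_mul_of_nonneg_right ?_ (by positivity)
  refine mul_le_mul_of_nonneg_left ?_ (by positivity)
  exact pow_le_pow_left₀ (by positivity) hmr k


/-- **Exponential improvement of the upper bound.** For every `ε > 0` there is a constant `C` such that
`N(n, k) ≤ C (1/e + ε)^k k!` for all `n` and `k`. -/
theorem result : ∀ ε : ℝ, 0 < ε → ∃ C : ℝ, ∀ n k : ℕ,
    ((⨅ a : Fin k → ZMod n,
        {π : Equiv.Perm (Fin k) |
          Function.Injective (fun i : Fin k => a (π i) + (((i : ℕ)) : ZMod n))}.ncard : ℕ) : ℝ)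
      ≤ C * (Real.exp (-1) + ε) ^ k * (k.factorial : ℝ) :=
  fun ε hε => exponential_bound ε hε

end Pool.Agent.Results.MP_31c4fb_co.ExponentialUpperBound
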