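import Pool.Agent.KSN.Final

set_option autoImplicit false

namespace Pool.Agent.Results.MP_31c4fb_co.NearLinearCycle

/-- `N(n, k)`: the least number, over all vectors `a` with `k` entries in `ℤ/n`, of permutations `π`
for which the sums `a (π i) + i` are pairwise distinct (positions `0, …, k - 1`). Since
`ZMod 0 = ℤ`, `N(0, k)` is the same number for vectors of integers. -/
noncomputable def N (n k : ℕ) : ℕ :=
  ⨅ a : Fin k → ZMod n,
    {π : Equiv.Perm (Fin k) |
      Function.Injective (fun i : Fin k => a (π i) + (((i : ℕ)) : ZMod n))}.ncard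

/-- As soon as `n > k (k - 1)` or `n ≥ 25000000 k (⌊log₂ k⌋ + 1)²`, the number `N(n, k)` is the
integer value `N(0, k)`, and it is at least `N(m, k)` for every `m`; in particular
`N(n - 1, k) ≤ N(n, k)`. -/
theorem result (n k : ℕ)
    (h : k * (k - 1) < n ∨ 25000000 * k * (Nat.log 2 k + 1) ^ 2 ≤ n) :
    N n k = N 0 k ∧ ∀ m : ℕ, N m k ≤ N n k := by
  have h1 : N n k = N 0 k := Pool.Agent.KSN.final.2.1 n k h
  refine ⟨h1, fun m => ?_⟩
  rw [h1]
  exact Pool.Agent.KSN.final.1 m k

end Pool.Agent.Results.MP_31c4fb_co.NearLinearCycle
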