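import Pool.Agent.KSLow.G

set_option autoImplicit false

namespace Pool.Agent.Results.MP_31c4fb_co.SuperexponentialLower

/-- `N(n, k)`: the least number, over all vectors `a` with `k` entries in `ℤ/n`, of permutations `π`
for which the sums `a (π i) + i` are pairwise distinct (positions `0, …, k - 1`). Since
`ZMod 0 = ℤ`, `N(0, k)` is the same number for vectors of integers. -/
noncomputable def N (n k : ℕ) : ℕ :=
  ⨅ a : Fin k → ZMod n,
    {π : Equiv.Perm (Fin k) |
      Function.Injective (fun i : Fin k => a (π i) + (((i : ℕ)) : ZMod n))}.ncard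

/-- For `k ≥ exp (12 ^ 20)` the number `N(n, k)` is at least `(log k) ^ (k / 20)`, for the integers
(`n = 0`) and for every `n` with `n > k (k - 1)` or `n ≥ 25000000 k (⌊log₂ k⌋ + 1)²`. -/
theorem result (k n : ℕ) (hk : Real.exp (12 ^ 20) ≤ (k : ℝ))
    (hn : n = 0 ∨ k * (k - 1) < n ∨ 25000000 * k * (Nat.log 2 k + 1) ^ 2 ≤ n) :
    Real.log (k : ℝ) ^ ((k : ℝ) / 20) ≤ (N n k : ℝ) :=
  Pool.Agent.KSLow.final k n hk hn

end Pool.Agent.Results.MP_31c4fb_co.SuperexponentialLower
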